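import Pool.Agent.H78.KP.Stmts

/-! # Project KP, module INT: integration of the differential inequality -/

set_option autoImplicit false

open MeasureTheory Set Filter Topology

namespace Pool.Agent.H82.KP

open Pool.Agent.H78.KP

theorem int_exp (u : ℝ) (hu : 0 ≤ u) : Real.exp (-u) * (1 + u) ^ 2 ≤ 3 / 2 := by
  have h1 : (1 + u) / 2 ≤ Real.exp ((u - 1) / 2) := by
    have := Real.add_one_le_exp ((u - 1) / 2)
    linarith
  have h2 : ((1 + u) / 2) ^ 2 ≤ Real.exp (u - 1) := by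
    have h3 : Real.exp (u - 1) = Real.exp ((u - 1) / 2) ^ 2 := by
      rw [← Real.exp_nat_mul]
      congr 1
      push_cast
      ring
    rw [h3]
    exact pow_le_pow_left₀ (by linarith) h1 2
  have h4 : Real.exp (u - 1) * Real.exp 1 = Real.exp u := by
    rw [← Real.exp_add]
    congr 1
    ring
  have h5 := Real.exp_one_gt_d9
  have h6 : Real.exp (-u) * Real.exp u = 1 := by
    rw [← Real.exp_add]
    simp
  have h7 : (0:ℝ) < Real.exp (-u) := Real.exp_pos _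
  have h8 : (0:ℝ) < Real.exp (u - 1) := Real.exp_pos _
  have h9 : (1 + u) ^ 2 ≤ 3 / 2 * Real.exp u := by nlinarith
  calc Real.exp (-u) * (1 + u) ^ 2 ≤ Real.exp (-u) * (3 / 2 * Real.exp u) :=
        mul_le_mul_of_nonneg_left h9 h7.le
    _ = 3 / 2 * (Real.exp (-u) * Real.exp u) := by ring
    _ = 3 / 2 := by rw [h6]; ring

theorem int_alg (a b s w C δ : ℝ) (ha : 0 ≤ a) (ha1 : a ≤ 1 / 100) (hδ0 : 0 ≤ δ)
    (hδ : δ ≤ 1 / 100)
    (hb0 : 0 ≤ b) (hb : b ≤ (1 + δ) * a) (hs0 : 0 ≤ s) (hs : s ≤ 3 / 8 * ((1 + δ) * a))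
    (hw0 : 0 ≤ w) (hw : w ≤ 1 / 10) (hCs : C * s ≤ 1 / 100) :
    (1 - a) ^ 4 * (1 + b * (3 / 2 + w / 2)) ≤ 1 - s - C * s ^ 2 := by
  have h1 : (1 - a) ^ 4 ≤ 1 - 4 * a + 6 * a ^ 2 := by
    have : 0 ≤ a ^ 3 := by positivity
    nlinarith [mul_nonneg this (by linarith : (0:ℝ) ≤ 4 - a)]
  have hb1 : b ≤ 101 / 100 * a := by nlinarith
  have hs1 : s ≤ 3 / 8 * (101 / 100 * a) := by nlinarith
  have h2 : b * (3 / 2 + w / 2) ≤ 101 / 100 * a * (3 / 2 + 1 / 20) := by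
    apply mul_le_mul hb1 (by linarith) (by linarith) (by positivity)
  have h3 : 0 ≤ b * (3 / 2 + w / 2) := mul_nonneg hb0 (by linarith)
  have h4 : C * s ^ 2 ≤ 1 / 100 * s := by nlinarith
  have h5 : (1 - a) ^ 4 * (1 + b * (3 / 2 + w / 2)) ≤
      (1 - 4 * a + 6 * a ^ 2) * (1 + 101 / 100 * a * (3 / 2 + 1 / 20)) := by
    apply mul_le_mul h1 (by linarith) (by linarith)
    nlinarith
  refine h5.trans ?_
  nlinarith [mul_nonneg ha ha, mul_nonneg (mul_nonneg ha ha) ha]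

theorem int_step (P : ℝ → ℝ → Prop) (t0 K C : ℝ) (hK : 1 ≤ K) (hC : 1 ≤ C)
    (h2 : ∀ t s η g L : ℝ, t0 ≤ t → t ≤ 1 → 0 < s → s ≤ 1 → 0 < η → 0 < g → 1 ≤ L →
      P (t + η * s) g →
      g * (1 + s / t * (η ^ 2 / 4 + 2 * K * (1 + C * Real.sqrt s) / Real.sqrt L)) ≤
        (1 - s - C * s ^ 2) * L → P t L)
    (y δ : ℝ) (hy : 0 ≤ y) (hδ0 : 0 < δ) (hδ : δ * (100 * C ^ 2 * Real.sqrt K) ≤ 1)
    (ht : t0 ≤ Real.exp (-(y + δ)))
    (hP : P (Real.exp (-y)) ((1 + Real.sqrt K * y) ^ 4)) :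
    P (Real.exp (-(y + δ))) ((1 + Real.sqrt K * (y + δ)) ^ 4) := by
  obtain ⟨k, hk⟩ : ∃ k, k = Real.sqrt K := ⟨_, rfl⟩
  have hk1 : 1 ≤ k := by rw [hk]; exact Real.one_le_sqrt.2 hK
  have hkK : K = k ^ 2 := by rw [hk, Real.sq_sqrt (by linarith)]
  rw [← hk] at hδ hP ⊢
  obtain ⟨z, hz⟩ : ∃ z, z = 1 + k * (y + δ) := ⟨_, rfl⟩
  obtain ⟨t, htd⟩ : ∃ t, t = Real.exp (-(y + δ)) := ⟨_, rfl⟩
  obtain ⟨e, he⟩ : ∃ e, e = Real.exp δ - 1 := ⟨_, rfl⟩
  rw [← hz, ← htd]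
  rw [← htd] at ht
  have hk0 : 0 < k := by linarith
  have hz1 : 1 ≤ z := by
    rw [hz]
    have : 0 ≤ k * (y + δ) := by positivity
    linarith
  have hz0 : 0 < z := by linarith
  have ht0 : 0 < t := by rw [htd]; exact Real.exp_pos _
  have ht1 : t ≤ 1 := by
    rw [htd, Real.exp_le_one_iff]
    linarith
  have hC2 : 1 ≤ C ^ 2 := one_le_pow₀ hC
  have hC2k : 1 ≤ C ^ 2 * k := by nlinarith
  have hδ1 : δ ≤ 1 / 100 := by nlinarith
  have hkδ : C ^ 2 * (k * δ) ≤ 1 / 100 := by nlinarith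
  have hkδ0 : 0 < k * δ := by positivity
  have hkδ1 : k * δ ≤ 1 / 100 := by nlinarith
  have he0 : 0 < e := by
    have := Real.add_one_lt_exp hδ0.ne'
    rw [he]
    linarith
  have he1 : e ≤ (1 + δ) * δ := by
    have h := Real.abs_exp_sub_one_sub_id_le (x := δ) (by rw [abs_of_pos hδ0]; linarith)
    have h' := (abs_le.1 h).2
    rw [he]
    nlinarith
  obtain ⟨a, ha⟩ : ∃ a, a = k * δ / z := ⟨_, rfl⟩
  obtain ⟨b, hb⟩ : ∃ b, b = e * k / z := ⟨_, rfl⟩
  obtain ⟨s, hs⟩ : ∃ s, s = t * e * z / (4 * k) := ⟨_, rfl⟩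
  have ha0 : 0 < a := by rw [ha]; positivity
  have hb0 : 0 < b := by rw [hb]; positivity
  have hs0 : 0 < s := by rw [hs]; positivity
  have hakδ : a ≤ k * δ := by
    rw [ha]
    exact div_le_self hkδ0.le hz1
  have hba : b ≤ (1 + δ) * a := by
    rw [hb, ha, mul_div_assoc', div_le_div_iff_of_pos_right hz0]
    nlinarith
  have htz : t * z ^ 2 ≤ 3 / 2 * k ^ 2 := by
    have h1 := int_exp (y + δ) (by linarith)
    rw [← htd] at h1
    have h3 : z ≤ k * (1 + (y + δ)) := by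
      rw [hz]
      linarith
    have h4 : z ^ 2 ≤ (k * (1 + (y + δ))) ^ 2 := pow_le_pow_left₀ hz0.le h3 2
    calc t * z ^ 2 ≤ t * (k * (1 + (y + δ))) ^ 2 := mul_le_mul_of_nonneg_left h4 ht0.le
      _ = k ^ 2 * (t * (1 + (y + δ)) ^ 2) := by ring
      _ ≤ k ^ 2 * (3 / 2) := mul_le_mul_of_nonneg_left h1 (by positivity)
      _ = 3 / 2 * k ^ 2 := by ring
  have hsb : s ≤ 3 / 8 * b := by
    have e1 : s = (t * z ^ 2) * (e / (4 * k * z)) := by
      rw [hs]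
      field_simp
    have e2 : 3 / 8 * b = (3 / 2 * k ^ 2) * (e / (4 * k * z)) := by
      rw [hb]
      field_simp
      ring
    rw [e1, e2]
    exact mul_le_mul_of_nonneg_right htz (by positivity)
  have hsa : s ≤ 3 / 8 * ((1 + δ) * a) := hsb.trans (by linarith)
  have hskδ : s ≤ 1 / 2 * (k * δ) := by nlinarith
  have hs1 : s ≤ 1 := by linarith
  have hC2s : C ^ 2 * s ≤ 1 / 200 := by
    calc C ^ 2 * s ≤ C ^ 2 * (1 / 2 * (k * δ)) := mul_le_mul_of_nonneg_left hskδ (by positivity)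
      _ = 1 / 2 * (C ^ 2 * (k * δ)) := by ring
      _ ≤ 1 / 200 := by linarith
  have hCs : C * s ≤ 1 / 100 := by nlinarith
  have hw0 : 0 ≤ C * Real.sqrt s := by positivity
  have hw : C * Real.sqrt s ≤ 1 / 10 := by
    have h1 : (C * Real.sqrt s) ^ 2 ≤ (1 / 10) ^ 2 := by
      rw [mul_pow, Real.sq_sqrt hs0.le]
      linarith
    exact le_of_sq_le_sq h1 (by norm_num)
  have hη0 : 0 < 4 * k / z := by positivity
  have hη : t + 4 * k / z * s = Real.exp (-y) := by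
    have h1 : Real.exp (-y) = t * Real.exp δ := by
      rw [htd, ← Real.exp_add]
      congr 1
      ring
    rw [h1, hs, he]
    field_simp
    ring
  have hy1 : 1 + k * y = z * (1 - a) := by
    rw [ha, mul_sub, mul_div_cancel₀ _ hz0.ne', hz]
    ring
  refine h2 t s (4 * k / z) ((1 + k * y) ^ 4) (z ^ 4) ht ht1 hs0 hs1 hη0 (by positivity)
    (one_le_pow₀ hz1) ?_ ?_
  · rw [hη]
    exact hP
  · have e1 : Real.sqrt (z ^ 4) = z ^ 2 := by
      rw [show z ^ 4 = (z ^ 2) ^ 2 by ring]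
      exact Real.sqrt_sq (by positivity)
    have e2 : s / t * ((4 * k / z) ^ 2 / 4 + 2 * K * (1 + C * Real.sqrt s) / Real.sqrt (z ^ 4)) =
        b * (3 / 2 + C * Real.sqrt s / 2) := by
      have e3 : s / t = e * z / (4 * k) := by
        rw [hs]
        field_simp
      rw [e1, e3, hkK, hb]
      generalize Real.sqrt s = q
      field_simp
      ring
    rw [e2, hy1, mul_pow]
    have h := int_alg a b s (C * Real.sqrt s) C δ ha0.le (hakδ.trans hkδ1) hδ0.le hδ1 hb0.le hba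
      hs0.le hsa hw0 hw hCs
    calc z ^ 4 * (1 - a) ^ 4 * (1 + b * (3 / 2 + C * Real.sqrt s / 2)) =
        z ^ 4 * ((1 - a) ^ 4 * (1 + b * (3 / 2 + C * Real.sqrt s / 2))) := by ring
      _ ≤ z ^ 4 * (1 - s - C * s ^ 2) := mul_le_mul_of_nonneg_left h (by positivity)
      _ = (1 - s - C * s ^ 2) * z ^ 4 := by ring

theorem int_thm : INTStmt := by
  intro P t0 K C ht0 ht1 hK hC h1 h2
  obtain ⟨y0, hy0⟩ : ∃ y, y = Real.log (1 / t0) := ⟨_, rfl⟩
  have hy : 0 ≤ y0 := by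
    rw [hy0]
    exact Real.log_nonneg (by rw [le_div_iff₀ ht0]; linarith)
  have hexp : Real.exp (-y0) = t0 := by
    rw [hy0, one_div, Real.log_inv, neg_neg, Real.exp_log ht0]
  rw [← hy0]
  obtain ⟨N, hN⟩ := exists_nat_gt (y0 * (100 * C ^ 2 * Real.sqrt K))
  have hk1 : 1 ≤ Real.sqrt K := Real.one_le_sqrt.2 hK
  have hN0 : (0:ℝ) < N := lt_of_le_of_lt (by positivity) hN
  rcases hy.eq_or_lt with h0 | h0
  · rw [← h0] at hexp ⊢
    rw [neg_zero, Real.exp_zero] at hexp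
    rw [← hexp]
    exact h1 1 _ le_rfl (by simp)
  have hδ0 : 0 < y0 / N := by positivity
  have hδ : y0 / N * (100 * C ^ 2 * Real.sqrt K) ≤ 1 := by
    rw [div_mul_eq_mul_div, div_le_one hN0]
    exact hN.le
  have key : ∀ j : ℕ, j ≤ N → P (Real.exp (-(j * (y0 / N))))
      ((1 + Real.sqrt K * (j * (y0 / N))) ^ 4) := by
    intro j
    induction j with
    | zero =>
      intro _
      simp only [Nat.cast_zero, zero_mul, neg_zero, Real.exp_zero, mul_zero, add_zero, one_pow]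
      exact h1 1 1 le_rfl le_rfl
    | succ j ih =>
      intro hj
      have e1 : ((j + 1 : ℕ) : ℝ) * (y0 / N) = j * (y0 / N) + y0 / N := by
        push_cast
        ring
      rw [e1]
      refine int_step P t0 K C hK hC h2 (j * (y0 / N)) (y0 / N) (by positivity) hδ0 hδ ?_
        (ih (by omega))
      rw [← e1, ← hexp, Real.exp_le_exp, neg_le_neg_iff]
      have : ((j + 1 : ℕ) : ℝ) ≤ N := by exact_mod_cast hj
      calc ((j + 1 : ℕ) : ℝ) * (y0 / N) ≤ N * (y0 / N) :=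
            mul_le_mul_of_nonneg_right this hδ0.le
        _ = y0 := by field_simp
  have h := key N le_rfl
  have e1 : (N:ℝ) * (y0 / N) = y0 := by field_simp
  rw [e1, hexp] at h
  exact h

end Pool.Agent.H82.KP
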