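import Pool.Agent.H78.KP.Stmts
import Pool.Agent.H2.KG.IMP

/-! # Project KP, module NSA: the pairing for large `T` -/

set_option autoImplicit false
set_option linter.unusedSectionVars false

open MeasureTheory Set Filter Topology
open scoped ContDiff NNReal

namespace Pool.Agent.H82.KP

open Pool.Agent.H84 Pool.Agent.H84.Sym Pool.Agent.H84.Sym.P2x Pool.Agent.H84.Sym.S29
open Pool.Agent.H19.KL
open Pool.Agent.H73.KG Pool.Agent.H78.KP

section

variable {E : Type} [NormedAddCommGroup E] [InnerProductSpace ℝ E]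
    [FiniteDimensional ℝ E] [MeasurableSpace E] [BorelSpace E]
variable {ι : Type} [Fintype ι]

/-- Taylor estimate for test functions -/
theorem nsa_taylor {f : E → ℝ} (hf : Tst f) : ∃ M : ℝ, 0 ≤ M ∧ ∀ a x : E,
    |f x - f a - fderiv ℝ f a (x - a)| ≤ M * ‖x - a‖ ^ 2 := by
  have h1 : ContDiff ℝ 1 (fderiv ℝ f) := by
    have h2 : ContDiff ℝ 2 f := by simpa using contDiff_infty.mp hf.1 2
    exact h2.fderiv_right (by norm_num)
  have h2 : HasCompactSupport (fderiv ℝ f) := hf.2.fderiv (𝕜 := ℝ)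
  obtain ⟨M, hM⟩ := h1.lipschitzWith_of_hasCompactSupport h2 one_ne_zero
  have hd : Differentiable ℝ f := (hf.1.of_le (by exact_mod_cast le_top : (1 : WithTop ℕ∞) ≤ ∞)).differentiable
    one_ne_zero
  refine ⟨M, M.2, fun a x => ?_⟩
  have h3 := (convex_segment a x).norm_image_sub_le_of_norm_hasFDerivWithin_le' (f := f)
    (f' := fderiv ℝ f) (φ := fderiv ℝ f a) (C := M * ‖x - a‖)
    (fun z _ => (hd z).hasFDerivAt.hasFDerivWithinAt) (fun z hz => ?_)
    (left_mem_segment ℝ a x) (right_mem_segment ℝ a x)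
  · rw [Real.norm_eq_abs] at h3
    calc _ ≤ M * ‖x - a‖ * ‖x - a‖ := h3
      _ = M * ‖x - a‖ ^ 2 := by ring
  · have h4 := hM.norm_sub_le z a
    refine h4.trans (mul_le_mul_of_nonneg_left ?_ M.2)
    obtain ⟨α, β, hα, hβ, hαβ, rfl⟩ := hz
    have e : α • a + β • x - a = β • (x - a) := by
      have : α = 1 - β := by linarith
      rw [this]
      module
    rw [e, norm_smul, Real.norm_of_nonneg hβ]
    exact mul_le_of_le_one_left (norm_nonneg _) (by linarith)

theorem nsa_lin (b : OrthonormalBasis ι ℝ E) (f : E → ℝ) (a v : E) :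
    fderiv ℝ f a v = ∑ l, D (b l) f a * inner ℝ (b l) v := by
  conv_lhs => rw [← b.sum_repr v]
  rw [map_sum]
  refine Finset.sum_congr rfl fun l _ => ?_
  rw [map_smul, smul_eq_mul, b.repr_apply_apply, mul_comm]
  rfl

/-- the mean -/
noncomputable def nsaMean (b : OrthonormalBasis ι ℝ E) (U : E → ℝ) : E := ∑ i, mn U (b i) • b i

theorem nsaMean_inner (b : OrthonormalBasis ι ℝ E) (U : E → ℝ) (i : ι) :
    inner ℝ (b i) (nsaMean b U) = mn U (b i) := by
  unfold nsaMean
  rw [b.orthonormal.inner_right_fintype]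

theorem nsa_inner_sub (b : OrthonormalBasis ι ℝ E) (U : E → ℝ) (i : ι) (x : E) :
    inner ℝ (b i) (x - nsaMean b U) = li (b i) x - mn U (b i) := by
  rw [inner_sub_right, nsaMean_inner]
  rfl

theorem nsa_normsq (b : OrthonormalBasis ι ℝ E) (U : E → ℝ) (x : E) :
    ‖x - nsaMean b U‖ ^ 2 = ∑ i, (li (b i) x - mn U (b i)) ^ 2 := by
  rw [← b.sum_sq_norm_inner_right]
  refine Finset.sum_congr rfl fun i _ => ?_
  rw [nsa_inner_sub, Real.norm_eq_abs, sq_abs]

theorem nsa_cv {U : E → ℝ} {t C : ℝ} (hU : Pot U t C)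
    (e : E) {h : E → ℝ} (hh : GC h) :
    cv U (li e) h = ∫ x, (li e x - mn U e) * h x ∂(mu U) := by
  have i1 : Integrable (fun x => li e x * h x) (mu U) := ((BAS_li e).mul hh).integrable hU
  have i2 : Integrable (fun x => mn U e * h x) (mu U) := (hh.integrable hU).const_mul _
  have e1 : (fun x => (li e x - mn U e) * h x) = fun x => li e x * h x - mn U e * h x := by
    funext x
    ring
  rw [e1, integral_sub i1 i2, integral_const_mul]
  rfl

/-- the covariance matrix applied to a vector -/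
theorem nsa_Ay {U : E → ℝ} {T : ℝ} (hP : PP U T) (hB : BASStmt E) (b : OrthonormalBasis ι ℝ E)
    (y : ι → ℝ) (hT : 0 < T) : ∑ k, (∑ l, cm b U k l * y l) ^ 2 ≤ (1 / T) ^ 2 * ∑ l, y l ^ 2 := by
  obtain ⟨⟨C, hU⟩, hp⟩ := hP
  have hcov : CovLe U (1 / T) := hB.2.2.2.2.1 U T ⟨⟨C, hU⟩, hp⟩
  set Y : E := ∑ l, y l • b l with hY
  set v : ι → ℝ := fun k => ∑ l, cm b U k l * y l with hv
  set V : E := ∑ k, v k • b k with hV
  have hl : ∀ x : ι → ℝ, li (∑ i, x i • b i) = fun z => ∑ i, x i * li (b i) z := by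
    intro x
    funext z
    unfold li
    rw [sum_inner]
    exact Finset.sum_congr rfl fun i _ => by rw [real_inner_smul_left]
  have hsum : ∀ (x : ι → ℝ) (h : E → ℝ), GC h →
      cv U (li (∑ i, x i • b i)) h = ∑ i, x i * cv U (li (b i)) h := by
    intro x h hh
    rw [hl]
    have hG : ∀ s : Finset ι, GC (fun z => ∑ i ∈ s, x i * li (b i) z) := fun s =>
      GC.sum fun i => (GC.const (x i)).mul (BAS_li (b i))
    have : ∀ (s : Finset ι), cv U (fun z => ∑ i ∈ s, x i * li (b i) z) h =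
        ∑ i ∈ s, x i * cv U (li (b i)) h := by
      intro s
      classical
      induction s using Finset.induction_on with
      | empty =>
        simp only [Finset.sum_empty]
        unfold H73.KG.cv
        simp
      | insert a s ha ih =>
        simp only [Finset.sum_insert ha]
        rw [BAS_add hU ((GC.const (x a)).mul (BAS_li (b a))) (hG s) hh, BAS_smul, ih]
    exact this Finset.univ
  have e1 : ∀ k, v k = cv U (li (b k)) (li Y) := by
    intro k
    rw [BAS_symm, hY, hsum _ _ (BAS_li _), hv]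
    refine Finset.sum_congr rfl fun l _ => ?_
    rw [mul_comm, BAS_symm]
    rfl
  have e2 : cv U (li V) (li Y) = ∑ k, v k ^ 2 := by
    rw [hV, hsum _ _ (BAS_li _)]
    refine Finset.sum_congr rfl fun k _ => ?_
    rw [← e1]
    ring
  have h1 := BAS_cs hU hp (BAS_li V) (BAS_li Y)
  have h2 := hcov V
  have h3 := hcov Y
  rw [hV, normsq_expand b v, ← hV] at h2
  rw [hY, normsq_expand b y, ← hY] at h3
  rw [e2] at h1
  have hT1 : 0 < 1 / T := by positivity
  set S := ∑ k, v k ^ 2 with hS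
  have hS0 : 0 ≤ S := Finset.sum_nonneg fun k _ => sq_nonneg _
  have hY0 : 0 ≤ ∑ l, y l ^ 2 := Finset.sum_nonneg fun k _ => sq_nonneg _
  have h4 : S ^ 2 ≤ (1 / T * S) * (1 / T * ∑ l, y l ^ 2) :=
    h1.trans (mul_le_mul h2 h3 (BAS_nonneg hU hp (BAS_li Y)) (by positivity))
  rcases hS0.eq_or_lt with h0 | h0
  · rw [← h0]
    positivity
  · have h5 : S * S ≤ S * ((1 / T) ^ 2 * ∑ l, y l ^ 2) := by
      calc S * S = S ^ 2 := by ring
        _ ≤ _ := h4
        _ = _ := by ring
    exact le_of_mul_le_mul_left h5 h0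

theorem nsa_CT_entry {O : Matrix ι ι ℝ} (hO : CT O) (k m : ι) : |O k m| ≤ 1 := by
  classical
  have h := hO (fun i => if i = k then 1 else 0) (fun i => if i = m then 1 else 0)
  have e1 : ∑ k', ∑ l, O k' l * ((if k' = k then (1:ℝ) else 0) * (if l = m then (1:ℝ) else 0)) =
      O k m := by
    simp [Finset.sum_ite_eq', mul_ite]
  have e2 : ∀ j : ι, ∑ i, (if i = j then (1:ℝ) else 0) ^ 2 = 1 := by
    intro j
    simp
  rw [e1, e2, e2, one_mul] at h
  exact abs_le_one_iff_mul_self_le_one.2 (by nlinarith)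

/-- moments of the distance from the mean -/
theorem nsa_mom (hM4 : M4Stmt E) {U : E → ℝ} {T : ℝ} (hP : PP U T) (hT : 1 ≤ T)
    (b : OrthonormalBasis ι ℝ E) :
    ∫ x, ‖x - nsaMean b U‖ ∂(mu U) ≤ ((Fintype.card ι : ℝ) + 1) / 2 * (1 / Real.sqrt T) ∧
    ∫ x, ‖x - nsaMean b U‖ ^ 3 ∂(mu U) ≤
      (5 * (Fintype.card ι : ℝ) ^ 2 + Fintype.card ι) / 2 * (1 / T * (1 / Real.sqrt T)) := by
  have hM := hM4 U T hP
  obtain ⟨⟨C, hU⟩, hp⟩ := hP
  set a := nsaMean b U with ha
  set n : ℝ := (Fintype.card ι : ℝ) with hn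
  have hn0 : 0 ≤ n := by positivity
  have hc : ∀ i, GC (fun x => li (b i) x - mn U (b i)) := fun i => (BAS_li (b i)).sub (GC.const _)
  have i2 : ∀ i, Integrable (fun x => (li (b i) x - mn U (b i)) ^ 2) (mu U) := fun i =>
    ((hc i).sq).integrable hU
  have i4 : ∀ i, Integrable (fun x => (li (b i) x - mn U (b i)) ^ 4) (mu U) := fun i => by
    have := (((hc i).sq).sq).integrable hU
    refine this.congr (Eventually.of_forall fun x => ?_)
    show ((li (b i) x - mn U (b i)) ^ 2) ^ 2 = _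
    ring
  have hg : GC (fun x : E => ‖x - a‖) := by
    refine ⟨by fun_prop, ?_⟩
    refine Gr.of_le (Gr.add (Gr.nrm (H := E)) (Gr.of_bdd (H := E) (F := fun _ => ‖a‖) (A := ‖a‖)
      fun _ => by simp)) fun x => ?_
    rw [abs_of_nonneg (norm_nonneg _), abs_of_nonneg (by positivity)]
    exact norm_sub_le _ _
  have j1 : Integrable (fun x : E => ‖x - a‖) (mu U) := hg.integrable hU
  have j2 : Integrable (fun x : E => ‖x - a‖ ^ 2) (mu U) := hg.sq.integrable hU
  have j3 : Integrable (fun x : E => ‖x - a‖ ^ 3) (mu U) := by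
    have := (hg.mul hg.sq).integrable hU
    refine this.congr (Eventually.of_forall fun x => ?_)
    show ‖x - a‖ * ‖x - a‖ ^ 2 = _
    ring
  have j4 : Integrable (fun x : E => ‖x - a‖ ^ 4) (mu U) := by
    have := (hg.sq.sq).integrable hU
    refine this.congr (Eventually.of_forall fun x => ?_)
    show (‖x - a‖ ^ 2) ^ 2 = _
    ring
  have m2 : ∫ x, ‖x - a‖ ^ 2 ∂(mu U) ≤ n * (1 / T) := by
    simp_rw [ha, nsa_normsq b U]
    rw [integral_finsetSum _ fun i _ => i2 i]
    calc ∑ i, ∫ x, (li (b i) x - mn U (b i)) ^ 2 ∂(mu U) ≤ ∑ _i : ι, 1 / T :=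
          Finset.sum_le_sum fun i _ => (hM (b i) (b.orthonormal.1 i)).1
      _ = n * (1 / T) := by simp [hn]
  have m4 : ∫ x, ‖x - a‖ ^ 4 ∂(mu U) ≤ 5 * n ^ 2 * (1 / T ^ 2) := by
    have h1 : ∀ x, ‖x - a‖ ^ 4 ≤ n * ∑ i, (li (b i) x - mn U (b i)) ^ 4 := by
      intro x
      have e1 : ‖x - a‖ ^ 4 = (‖x - a‖ ^ 2) ^ 2 := by ring
      rw [e1, ha, nsa_normsq b U]
      have h2 := sq_sum_le_card_mul_sum_sq (s := (Finset.univ : Finset ι))
        (f := fun i => (li (b i) x - mn U (b i)) ^ 2)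
      rw [Finset.card_univ] at h2
      refine h2.trans (le_of_eq ?_)
      congr 1
      refine Finset.sum_congr rfl fun i _ => ?_
      ring
    have i5 : Integrable (fun x => n * ∑ i, (li (b i) x - mn U (b i)) ^ 4) (mu U) :=
      (integrable_finsetSum _ fun i _ => i4 i).const_mul n
    calc ∫ x, ‖x - a‖ ^ 4 ∂(mu U) ≤ ∫ x, n * ∑ i, (li (b i) x - mn U (b i)) ^ 4 ∂(mu U) :=
          integral_mono j4 i5 h1
      _ = n * ∑ i, ∫ x, (li (b i) x - mn U (b i)) ^ 4 ∂(mu U) := by
          rw [integral_const_mul, integral_finsetSum _ fun i _ => i4 i]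
      _ ≤ n * ∑ _i : ι, 5 / T ^ 2 := by
          refine mul_le_mul_of_nonneg_left (Finset.sum_le_sum fun i _ => ?_) hn0
          exact (hM (b i) (b.orthonormal.1 i)).2
      _ = 5 * n ^ 2 * (1 / T ^ 2) := by
          simp only [Finset.sum_const, Finset.card_univ, nsmul_eq_mul]
          rw [← hn]
          ring
  obtain ⟨q, hq⟩ : ∃ q, q = Real.sqrt T := ⟨_, rfl⟩
  have hT0 : 0 < T := by linarith
  have hq0 : 0 < q := by rw [hq]; exact Real.sqrt_pos.2 hT0
  have hqT : T = q ^ 2 := by rw [hq, Real.sq_sqrt hT0.le]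
  rw [← hq]
  rw [hqT] at m2 m4 ⊢
  constructor
  · have h1 : ∀ x : E, ‖x - a‖ ≤ q / 2 * ‖x - a‖ ^ 2 + 1 / (2 * q) := by
      intro x
      have h2 : 0 ≤ (q * ‖x - a‖ - 1) ^ 2 / (2 * q) := by positivity
      have e : q / 2 * ‖x - a‖ ^ 2 + 1 / (2 * q) - ‖x - a‖ = (q * ‖x - a‖ - 1) ^ 2 / (2 * q) := by
        field_simp
        ring
      linarith
    have h3 : ∫ x, ‖x - a‖ ∂(mu U) ≤ ∫ x, (q / 2 * ‖x - a‖ ^ 2 + 1 / (2 * q)) ∂(mu U) :=
      integral_mono j1 ((j2.const_mul _).add (integrable_const _)) h1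
    rw [integral_add (j2.const_mul _) (integrable_const _), integral_const_mul,
      integral_const] at h3
    simp only [probReal_univ, smul_eq_mul, one_mul] at h3
    have h4 : q / 2 * ∫ x, ‖x - a‖ ^ 2 ∂(mu U) ≤ q / 2 * (n * (1 / q ^ 2)) :=
      mul_le_mul_of_nonneg_left m2 (by positivity)
    refine h3.trans ((add_le_add_left h4 _).trans (le_of_eq ?_))
    field_simp
  · have h1 : ∀ x : E, ‖x - a‖ ^ 3 ≤ q / 2 * ‖x - a‖ ^ 4 + 1 / (2 * q) * ‖x - a‖ ^ 2 := by
      intro x
      have h2 : 0 ≤ ‖x - a‖ ^ 2 * ((q * ‖x - a‖ - 1) ^ 2 / (2 * q)) := by positivity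
      have e : q / 2 * ‖x - a‖ ^ 4 + 1 / (2 * q) * ‖x - a‖ ^ 2 - ‖x - a‖ ^ 3 =
          ‖x - a‖ ^ 2 * ((q * ‖x - a‖ - 1) ^ 2 / (2 * q)) := by
        field_simp
        ring
      linarith
    have h3 : ∫ x, ‖x - a‖ ^ 3 ∂(mu U) ≤
        ∫ x, (q / 2 * ‖x - a‖ ^ 4 + 1 / (2 * q) * ‖x - a‖ ^ 2) ∂(mu U) :=
      integral_mono j3 ((j4.const_mul _).add (j2.const_mul _)) h1
    rw [integral_add (j4.const_mul _) (j2.const_mul _), integral_const_mul,
      integral_const_mul] at h3
    have h4 : q / 2 * ∫ x, ‖x - a‖ ^ 4 ∂(mu U) ≤ q / 2 * (5 * n ^ 2 * (1 / (q ^ 2) ^ 2)) :=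
      mul_le_mul_of_nonneg_left m4 (by positivity)
    have h5 : 1 / (2 * q) * ∫ x, ‖x - a‖ ^ 2 ∂(mu U) ≤ 1 / (2 * q) * (n * (1 / q ^ 2)) :=
      mul_le_mul_of_nonneg_left m2 (by positivity)
    refine h3.trans ((add_le_add h4 h5).trans (le_of_eq ?_))
    field_simp

theorem nsa_thm (hB : BASStmt E) (hM4 : M4Stmt E) : NSAStmt E := by
  intro ι _ b F Ψ hND
  classical
  obtain ⟨htst, ⟨Λ₀, hΛ₀⟩, hdom⟩ := hND
  choose M₀ hM₀0 hM₀ using fun m => nsa_taylor (htst m)
  set n : ℝ := (Fintype.card ι : ℝ) with hn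
  have hn0 : 0 ≤ n := by positivity
  set Λ : ℝ := max Λ₀ 0 with hΛd
  have hΛ0 : 0 ≤ Λ := le_max_right _ _
  have hΛ : ∀ x y, |Ψ x - Ψ y| ≤ Λ * ‖x - y‖ := fun x y =>
    (hΛ₀ x y).trans (mul_le_mul_of_nonneg_right (le_max_left _ _) (norm_nonneg _))
  set M : ℝ := ∑ m, M₀ m with hMd
  have hM0 : 0 ≤ M := Finset.sum_nonneg fun m _ => hM₀0 m
  have hMm : ∀ m, M₀ m ≤ M := fun m =>
    Finset.single_le_sum (f := M₀) (fun i _ => hM₀0 i) (Finset.mem_univ m)
  set q5 : ℝ := (5 * n ^ 2 + n) / 2 with hq5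
  have hq50 : 0 ≤ q5 := by positivity
  refine ⟨Λ * ((n + 1) / 2) + n * (n * (M * q5)), by positivity, ?_⟩
  intro T hT U hP O hO
  have hT0 : 0 < T := by linarith
  obtain ⟨hm1, hm3⟩ := nsa_mom hM4 hP hT b
  have hAy := fun y => nsa_Ay hP hB b y hT0
  obtain ⟨⟨C, hU⟩, hp⟩ := hP
  set a := nsaMean b U with ha
  set rT : ℝ := 1 / Real.sqrt T with hrT
  have hrT0 : 0 ≤ rT := by positivity
  -- growth of the functions
  have hc : ∀ i, GC (fun x => li (b i) x - mn U (b i)) := fun i => (BAS_li (b i)).sub (GC.const _)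
  have hF : ∀ m, GC (F m) := by
    intro m
    have hcont : Continuous (F m) := (htst m).1.continuous
    obtain ⟨A, hA⟩ := (htst m).2.exists_bound_of_continuous hcont
    exact ⟨hcont, Gr.of_bdd fun x => by simpa using hA x⟩
  have hg : GC (fun x : E => ‖x - a‖) := by
    refine ⟨by fun_prop, ?_⟩
    refine Gr.of_le (Gr.add (Gr.nrm (H := E)) (Gr.of_bdd (H := E) (F := fun _ => ‖a‖) (A := ‖a‖)
      fun _ => by simp)) fun x => ?_
    rw [abs_of_nonneg (norm_nonneg _), abs_of_nonneg (by positivity)]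
    exact norm_sub_le _ _
  have j1 : Integrable (fun x : E => ‖x - a‖) (mu U) := hg.integrable hU
  have j3 : Integrable (fun x : E => ‖x - a‖ ^ 3) (mu U) := by
    have := (hg.mul hg.sq).integrable hU
    refine this.congr (Eventually.of_forall fun x => ?_)
    show ‖x - a‖ * ‖x - a‖ ^ 2 = _
    ring
  have hΨc : Continuous Ψ := by
    have : LipschitzWith ⟨Λ, hΛ0⟩ Ψ := LipschitzWith.of_dist_le_mul fun x y => by
      rw [Real.dist_eq, dist_eq_norm]
      exact hΛ x y
    exact this.continuous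
  have hΨ : GC Ψ := by
    refine ⟨hΨc, ?_⟩
    refine Gr.of_le (Gr.add (Gr.of_bdd (H := E) (F := fun _ => |Ψ a|) (A := |Ψ a|)
      fun _ => by simp) (Gr.mul (Gr.of_bdd (H := E) (F := fun _ => Λ) (A := Λ)
        fun _ => by rw [abs_of_nonneg hΛ0]) hg.2)) fun x => ?_
    rw [abs_of_nonneg (a := |Ψ a| + Λ * ‖x - a‖) (by positivity)]
    have h1 := hΛ x a
    have h2 : |Ψ x| ≤ |Ψ a| + |Ψ x - Ψ a| := by
      have := abs_add_le (Ψ a) (Ψ x - Ψ a)
      rwa [add_sub_cancel] at this
    linarith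
  have jΨ : Integrable Ψ (mu U) := hΨ.integrable hU
  -- decomposition of the functions
  set P : ι → E → ℝ := fun m x => F m a + ∑ l, D (b l) (F m) a * (li (b l) x - mn U (b l)) with hPd
  set R : ι → E → ℝ := fun m x => F m x - P m x with hRd
  have hPG : ∀ m, GC (P m) := fun m =>
    (GC.const _).add (GC.sum fun l => (GC.const _).mul (hc l))
  have hRG : ∀ m, GC (R m) := fun m => (hF m).sub (hPG m)
  have hRb : ∀ m x, |R m x| ≤ M * ‖x - a‖ ^ 2 := by
    intro m x
    have h1 := hM₀ m a x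
    rw [nsa_lin b] at h1
    have e : R m x = F m x - F m a - ∑ l, D (b l) (F m) a * inner ℝ (b l) (x - a) := by
      show F m x - (F m a + ∑ l, D (b l) (F m) a * (li (b l) x - mn U (b l))) = _
      have : ∀ l, inner ℝ (b l) (x - a) = li (b l) x - mn U (b l) := fun l => by
        rw [ha]
        exact nsa_inner_sub b U l x
      simp_rw [this]
      ring
    rw [e]
    exact h1.trans (mul_le_mul_of_nonneg_right (hMm m) (by positivity))
  have hcv1 : ∀ k, ∫ x, (li (b k) x - mn U (b k)) ∂(mu U) = 0 := by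
    intro k
    rw [integral_sub ((BAS_li (b k)).integrable hU) (integrable_const _), integral_const]
    simp only [probReal_univ, smul_eq_mul, one_mul]
    unfold H73.KG.mn
    exact sub_self _
  have hcvP : ∀ k m, ∫ x, (li (b k) x - mn U (b k)) * P m x ∂(mu U) =
      ∑ l, cm b U k l * D (b l) (F m) a := by
    intro k m
    have e1 : (fun x => (li (b k) x - mn U (b k)) * P m x) = fun x =>
        F m a * (li (b k) x - mn U (b k)) + ∑ l, D (b l) (F m) a *
          ((li (b k) x - mn U (b k)) * (li (b l) x - mn U (b l))) := by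
      funext x
      simp only [hPd]
      rw [mul_add, Finset.mul_sum]
      congr 1
      · ring
      · exact Finset.sum_congr rfl fun l _ => by ring
    have i1 : Integrable (fun x => F m a * (li (b k) x - mn U (b k))) (mu U) :=
      ((hc k).integrable hU).const_mul _
    have i2 : ∀ l, Integrable (fun x => D (b l) (F m) a *
          ((li (b k) x - mn U (b k)) * (li (b l) x - mn U (b l)))) (mu U) := fun l =>
      (((hc k).mul (hc l)).integrable hU).const_mul _
    rw [e1, integral_add i1 (integrable_finsetSum _ fun l _ => i2 l), integral_const_mul,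
      hcv1, mul_zero, zero_add, integral_finsetSum _ fun l _ => i2 l]
    refine Finset.sum_congr rfl fun l _ => ?_
    rw [integral_const_mul, mul_comm]
    congr 1
    show _ = cv U (li (b k)) (li (b l))
    rw [BAS_cen hU hp (BAS_li _) (BAS_li _)]
    rfl
  have hcvR : ∀ k m, |∫ x, (li (b k) x - mn U (b k)) * R m x ∂(mu U)| ≤
      M * (q5 * (1 / T * rT)) := by
    intro k m
    have h1 : ∀ x, ‖(li (b k) x - mn U (b k)) * R m x‖ ≤ M * ‖x - a‖ ^ 3 := by
      intro x
      rw [norm_mul, Real.norm_eq_abs, Real.norm_eq_abs]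
      have h2 : |li (b k) x - mn U (b k)| ≤ ‖x - a‖ := by
        rw [← nsa_inner_sub b U k x, ← ha]
        refine (abs_real_inner_le_norm _ _).trans ?_
        rw [b.orthonormal.1 k, one_mul]
      calc |li (b k) x - mn U (b k)| * |R m x| ≤ ‖x - a‖ * (M * ‖x - a‖ ^ 2) :=
            mul_le_mul h2 (hRb m x) (abs_nonneg _) (norm_nonneg _)
        _ = M * ‖x - a‖ ^ 3 := by ring
    have h3 := norm_integral_le_of_norm_le (j3.const_mul M) (Eventually.of_forall h1)
    rw [Real.norm_eq_abs, integral_const_mul] at h3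
    exact h3.trans (mul_le_mul_of_nonneg_left hm3 hM0)
  -- the main term
  have hmain : ∀ k, cv U (li (b k)) (fun x => ∑ m, O k m * F m x) =
      ∑ m, O k m * (∑ l, cm b U k l * D (b l) (F m) a) +
        ∑ m, O k m * ∫ x, (li (b k) x - mn U (b k)) * R m x ∂(mu U) := by
    intro k
    rw [nsa_cv hU (b k) (GC.sum fun m => (GC.const (O k m)).mul (hF m))]
    have e1 : (fun x => (li (b k) x - mn U (b k)) * ∑ m, O k m * F m x) = fun x =>
        ∑ m, (O k m * ((li (b k) x - mn U (b k)) * P m x) +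
          O k m * ((li (b k) x - mn U (b k)) * R m x)) := by
      funext x
      rw [Finset.mul_sum]
      refine Finset.sum_congr rfl fun m _ => ?_
      simp only [hRd]
      ring
    have i1 : ∀ m, Integrable (fun x => O k m * ((li (b k) x - mn U (b k)) * P m x)) (mu U) :=
      fun m => (((hc k).mul (hPG m)).integrable hU).const_mul _
    have i2 : ∀ m, Integrable (fun x => O k m * ((li (b k) x - mn U (b k)) * R m x)) (mu U) :=
      fun m => (((hc k).mul (hRG m)).integrable hU).const_mul _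
    have i3 : ∀ m, Integrable (fun x => O k m * ((li (b k) x - mn U (b k)) * P m x) +
          O k m * ((li (b k) x - mn U (b k)) * R m x)) (mu U) := fun m => (i1 m).add (i2 m)
    rw [e1, integral_finsetSum _ fun m _ => i3 m, ← Finset.sum_add_distrib]
    refine Finset.sum_congr rfl fun m _ => ?_
    rw [integral_add (i1 m) (i2 m), integral_const_mul, integral_const_mul, hcvP]
  have hfirst : ∑ k, ∑ m, O k m * (∑ l, cm b U k l * D (b l) (F m) a) ≤
      1 / T * ((∫ x, Ψ x ∂(mu U)) + Λ * ((n + 1) / 2 * rT)) := by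
    -- the contraction
    set O' : Matrix ι ι ℝ := Matrix.of fun m l => T * ∑ k, O k m * cm b U k l with hO'
    have hO'CT : CT O' := by
      intro x y
      have h1 := hO (fun k => T * ∑ l, cm b U k l * y l) x
      have e1 : ∑ m, ∑ l, O' m l * (x m * y l) =
          ∑ k, ∑ m, O k m * ((T * ∑ l, cm b U k l * y l) * x m) := by
        rw [Finset.sum_comm (f := fun k m => O k m * ((T * ∑ l, cm b U k l * y l) * x m))]
        refine Finset.sum_congr rfl fun m _ => ?_
        have e2 : ∀ l, O' m l * (x m * y l) =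
            ∑ k, O k m * (T * (cm b U k l * y l) * x m) := by
          intro l
          simp only [hO', Matrix.of_apply]
          rw [Finset.mul_sum, Finset.sum_mul]
          exact Finset.sum_congr rfl fun k _ => by ring
        simp_rw [e2]
        rw [Finset.sum_comm]
        refine Finset.sum_congr rfl fun k _ => ?_
        rw [← Finset.mul_sum]
        congr 1
        rw [Finset.mul_sum, Finset.sum_mul]
      rw [e1]
      refine h1.trans ?_
      rw [mul_comm]
      refine mul_le_mul_of_nonneg_left ?_ (Finset.sum_nonneg fun m _ => sq_nonneg _)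
      have h2 := hAy y
      calc ∑ k, (T * ∑ l, cm b U k l * y l) ^ 2 = T ^ 2 * ∑ k, (∑ l, cm b U k l * y l) ^ 2 := by
            rw [Finset.mul_sum]
            exact Finset.sum_congr rfl fun k _ => by ring
        _ ≤ T ^ 2 * ((1 / T) ^ 2 * ∑ l, y l ^ 2) := mul_le_mul_of_nonneg_left h2 (by positivity)
        _ = ∑ l, y l ^ 2 := by field_simp
    have h1 := hdom O' hO'CT a
    have e3 : ∑ k, ∑ m, O k m * (∑ l, cm b U k l * D (b l) (F m) a) =
        1 / T * ∑ m, ∑ l, O' m l * D (b l) (F m) a := by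
      rw [Finset.sum_comm, Finset.mul_sum]
      refine Finset.sum_congr rfl fun m _ => ?_
      rw [Finset.mul_sum]
      have e4 : ∀ l, 1 / T * (O' m l * D (b l) (F m) a) =
          ∑ k, O k m * (cm b U k l * D (b l) (F m) a) := by
        intro l
        simp only [hO', Matrix.of_apply]
        rw [← mul_assoc, ← mul_assoc, one_div, inv_mul_cancel₀ hT0.ne', one_mul, Finset.sum_mul]
        exact Finset.sum_congr rfl fun k _ => by ring
      simp_rw [e4]
      rw [Finset.sum_comm]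
      exact Finset.sum_congr rfl fun k _ => by rw [Finset.mul_sum]
    rw [e3]
    refine mul_le_mul_of_nonneg_left (h1.trans ?_) (by positivity)
    have h2 : ∀ x, Ψ a ≤ Ψ x + Λ * ‖x - a‖ := by
      intro x
      have := (abs_le.1 (hΛ x a)).1
      linarith
    have h3 : ∫ _x, Ψ a ∂(mu U) ≤ ∫ x, (Ψ x + Λ * ‖x - a‖) ∂(mu U) :=
      integral_mono (integrable_const _) (jΨ.add (j1.const_mul _)) h2
    rw [integral_const, integral_add jΨ (j1.const_mul _), integral_const_mul] at h3
    simp only [probReal_univ, smul_eq_mul, one_mul] at h3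
    refine h3.trans (add_le_add_right (mul_le_mul_of_nonneg_left hm1 hΛ0) _)
  have hsecond : ∑ k, ∑ m, O k m * ∫ x, (li (b k) x - mn U (b k)) * R m x ∂(mu U) ≤
      n * (n * (M * (q5 * (1 / T * rT)))) := by
    calc ∑ k, ∑ m, O k m * ∫ x, (li (b k) x - mn U (b k)) * R m x ∂(mu U) ≤
        ∑ _k : ι, ∑ _m : ι, M * (q5 * (1 / T * rT)) := by
          refine Finset.sum_le_sum fun k _ => Finset.sum_le_sum fun m _ => ?_
          refine (le_abs_self _).trans ?_
          rw [abs_mul]
          calc |O k m| * |∫ x, (li (b k) x - mn U (b k)) * R m x ∂(mu U)| ≤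
              1 * (M * (q5 * (1 / T * rT))) :=
                mul_le_mul (nsa_CT_entry hO k m) (hcvR k m) (abs_nonneg _) zero_le_one
            _ = _ := one_mul _
      _ = _ := by
          simp only [Finset.sum_const, Finset.card_univ, nsmul_eq_mul]
          rfl
  calc ∑ k, cv U (li (b k)) (fun x => ∑ m, O k m * F m x) =
      ∑ k, ∑ m, O k m * (∑ l, cm b U k l * D (b l) (F m) a) +
        ∑ k, ∑ m, O k m * ∫ x, (li (b k) x - mn U (b k)) * R m x ∂(mu U) := by
          rw [← Finset.sum_add_distrib]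
          exact Finset.sum_congr rfl fun k _ => hmain k
    _ ≤ 1 / T * ((∫ x, Ψ x ∂(mu U)) + Λ * ((n + 1) / 2 * rT)) +
        n * (n * (M * (q5 * (1 / T * rT)))) := add_le_add hfirst hsecond
    _ = 1 / T * (∫ x, Ψ x ∂(mu U)) +
        (Λ * ((n + 1) / 2) + n * (n * (M * q5))) * (1 / T) * rT := by ring

end

end Pool.Agent.H82.KP
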